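import Pool.Agent.R713.QuatExtend

/-!
# Invariant maximal nonnegative subspaces with prescribed spectrum, quaternionic case
-/

set_option autoImplicit false

namespace Pool.Agent.K6.H67.QSpec

open Quaternion MulOpposite Polynomial Pool.Agent.R713

/-! ### similarity of quaternions and roots of real polynomials -/

/-- the quaternion with given components -/
def mkq (a b c d : ℝ) : ℍ[ℝ] := ⟨a, b, c, d⟩

@[simp] theorem mkq_re (a b c d : ℝ) : (mkq a b c d).re = a := rfl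
@[simp] theorem mkq_imI (a b c d : ℝ) : (mkq a b c d).imI = b := rfl
@[simp] theorem mkq_imJ (a b c d : ℝ) : (mkq a b c d).imJ = c := rfl
@[simp] theorem mkq_imK (a b c d : ℝ) : (mkq a b c d).imK = d := rfl

/-- every quaternion is similar to a complex number -/
theorem exists_complex (a : ℍ[ℝ]) : ∃ c : ℍ[ℝ], c ≠ 0 ∧ ∃ z : ℂ, a * c = c * (z : ℍ[ℝ]) := by
  set r : ℝ := Real.sqrt (a.imI ^ 2 + a.imJ ^ 2 + a.imK ^ 2) with hr
  have hr2 : r ^ 2 = a.imI ^ 2 + a.imJ ^ 2 + a.imK ^ 2 := Real.sq_sqrt (by positivity)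
  by_cases h : mkq 0 (a.imI + r) a.imJ a.imK = 0
  · refine ⟨1, one_ne_zero, ⟨a.re, a.imI⟩, ?_⟩
    have h2 := congrArg (fun q : ℍ[ℝ] => q.imJ) h
    have h3 := congrArg (fun q : ℍ[ℝ] => q.imK) h
    simp at h2 h3
    rw [mul_one, one_mul]
    ext <;> simp [h2, h3]
  · refine ⟨_, h, ⟨a.re, r⟩, ?_⟩
    apply Quaternion.ext
    · simp
      nlinarith
    · simp
      ring
    · simp
      ring
    · simp
      ring

/-- a set of quaternions closed under similarity -/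
def SimClosed (T : Set ℍ[ℝ]) : Prop := ∀ a ∈ T, ∀ c : ℍ[ℝ], c ≠ 0 → c⁻¹ * a * c ∈ T

theorem SimClosed.of_mul {T : Set ℍ[ℝ]} (hT : SimClosed T) {a b c : ℍ[ℝ]} (ha : a ∈ T)
    (hc : c ≠ 0) (h : a * c = c * b) : b ∈ T := by
  have := hT a ha c hc
  rwa [mul_assoc, h, ← mul_assoc, inv_mul_cancel₀ hc, one_mul] at this

theorem SimClosed.of_mul' {T : Set ℍ[ℝ]} (hT : SimClosed T) {a b c : ℍ[ℝ]} (hb : b ∈ T)
    (hc : c ≠ 0) (h : a * c = c * b) : a ∈ T := by
  have := hT b hb c⁻¹ (inv_ne_zero hc)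
  rwa [inv_inv, ← h, mul_assoc, mul_inv_cancel₀ hc, mul_one] at this

theorem SimClosed.conj {T : Set ℍ[ℝ]} (hT : SimClosed T) {z : ℂ} (hz : (z : ℍ[ℝ]) ∈ T) :
    ((starRingEnd ℂ z : ℂ) : ℍ[ℝ]) ∈ T := by
  refine hT.of_mul (c := mkq 0 0 1 0) hz ?_ ?_
  · intro h
    have := congrArg (fun q : ℍ[ℝ] => q.imJ) h
    simp at this
  · apply Quaternion.ext <;> simp

theorem aeval_mul_eq {a b c : ℍ[ℝ]} (h : a * c = c * b) (p : ℝ[X]) :
    aeval a p * c = c * aeval b p := by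
  induction p using Polynomial.induction_on' with
  | add p q hp hq => rw [map_add, map_add, add_mul, mul_add, hp, hq]
  | monomial n r =>
    rw [aeval_monomial, aeval_monomial]
    have h1 : ∀ n : ℕ, a ^ n * c = c * b ^ n := by
      intro n
      induction n with
      | zero => simp
      | succ n ih => rw [pow_succ, pow_succ, mul_assoc, h, ← mul_assoc, ih, mul_assoc]
    rw [mul_assoc, h1, ← mul_assoc, ← mul_assoc, Algebra.commutes]

theorem aeval_coeComplex (z : ℂ) (p : ℝ[X]) : aeval (z : ℍ[ℝ]) p = ((aeval z p : ℂ) : ℍ[ℝ]) := by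
  have := Polynomial.aeval_algHom_apply (Quaternion.ofComplex) z p
  simpa using this

theorem coeComplex_eq_zero {z : ℂ} (h : (z : ℍ[ℝ]) = 0) : z = 0 := by
  have h1 := congrArg (fun q : ℍ[ℝ] => q.re) h
  have h2 := congrArg (fun q : ℍ[ℝ] => q.imI) h
  simp at h1 h2
  exact Complex.ext h1 h2

/-- the real polynomial with the roots `z` and its conjugate -/
noncomputable def qpol (z : ℂ) : ℝ[X] := X ^ 2 - C (2 * z.re) * X + C (Complex.normSq z)

theorem aeval_qpol (z w : ℂ) : aeval w (qpol z) = (w - z) * (w - starRingEnd ℂ z) := by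
  have h1 : z + starRingEnd ℂ z = ((2 * z.re : ℝ) : ℂ) := by
    rw [Complex.add_conj]
  have h2 : z * starRingEnd ℂ z = ((Complex.normSq z : ℝ) : ℂ) := Complex.mul_conj z
  unfold qpol
  simp only [map_add, map_sub, map_mul, map_pow, aeval_X, aeval_C]
  have e1 : (algebraMap ℝ ℂ) (2 * z.re) = z + starRingEnd ℂ z := h1.symm
  have e2 : (algebraMap ℝ ℂ) (Complex.normSq z) = z * starRingEnd ℂ z := h2.symm
  have e3 : (algebraMap ℝ ℂ) 2 * (algebraMap ℝ ℂ) z.re = z + starRingEnd ℂ z := by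
    rw [← map_mul, e1]
  rw [e3, e2]
  ring

/-- the quaternionic roots of an irreducible real polynomial are similar -/
theorem irreducible_roots {p : ℝ[X]} (hp : Irreducible p) {T : Set ℍ[ℝ]} (hT : SimClosed T)
    {a b : ℍ[ℝ]} (ha : a ∈ T) (hpa : aeval a p = 0) (hpb : aeval b p = 0) : b ∈ T := by
  obtain ⟨c, hc, z, hz⟩ := exists_complex a
  obtain ⟨d, hd, w, hw⟩ := exists_complex b
  have hzT : (z : ℍ[ℝ]) ∈ T := hT.of_mul ha hc hz
  have hpz : aeval z p = 0 := by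
    have h1 := aeval_mul_eq hz p
    rw [hpa, zero_mul, aeval_coeComplex] at h1
    exact coeComplex_eq_zero ((mul_eq_zero.1 h1.symm).resolve_left hc)
  have hpw : aeval w p = 0 := by
    have h1 := aeval_mul_eq hw p
    rw [hpb, zero_mul, aeval_coeComplex] at h1
    exact coeComplex_eq_zero ((mul_eq_zero.1 h1.symm).resolve_left hd)
  have hzi : IsIntegral ℝ z := ⟨p * C (p.leadingCoeff)⁻¹, by
    refine Polynomial.monic_mul_leadingCoeff_inv hp.ne_zero, by
    rw [← aeval_def, map_mul, hpz, zero_mul]⟩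
  have h1 : minpoly ℝ z ∣ p := minpoly.dvd ℝ z hpz
  have h2 : p ∣ minpoly ℝ z := (minpoly.irreducible hzi).dvd_symm hp h1
  have h3 : minpoly ℝ z ∣ qpol z := minpoly.dvd ℝ z (by rw [aeval_qpol]; ring)
  have h4 : aeval w (qpol z) = 0 := by
    obtain ⟨r, hr⟩ := h2.trans h3
    rw [hr, map_mul, hpw, zero_mul]
  rw [aeval_qpol] at h4
  refine hT.of_mul' (a := b) (b := (w : ℍ[ℝ])) ?_ hd hw
  rcases mul_eq_zero.1 h4 with h | h
  · rw [sub_eq_zero.1 h]
    exact hzT
  · rw [sub_eq_zero.1 h]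
    exact hT.conj hzT

/-- the roots of `f` belong to `T` -/
def RootsIn (T : Set ℍ[ℝ]) (f : ℝ[X]) : Prop := ∀ a : ℍ[ℝ], aeval a f = 0 → a ∈ T

/-- `g` has no root in `T` -/
def NoRoot (T : Set ℍ[ℝ]) (g : ℝ[X]) : Prop := ∀ a ∈ T, aeval a g ≠ 0

theorem split {T : Set ℍ[ℝ]} (hT : SimClosed T) (m : ℝ[X]) (hm : m ≠ 0) :
    ∃ f g : ℝ[X], m = f * g ∧ RootsIn T f ∧ NoRoot T g := by
  induction m using WfDvdMonoid.induction_on_irreducible with
  | zero => exact absurd rfl hm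
  | unit u hu =>
    refine ⟨1, u, by rw [one_mul], fun a ha => ?_, fun a _ ha => ?_⟩
    · rw [map_one] at ha
      exact absurd ha one_ne_zero
    · obtain ⟨v, hv⟩ := hu.exists_right_inv
      have h1 := congrArg (aeval a) hv
      rw [map_mul, ha, zero_mul, map_one] at h1
      exact zero_ne_one h1
  | mul a p ha hp ih =>
    obtain ⟨f, g, h1, h2, h3⟩ := ih ha
    by_cases hroot : ∃ t ∈ T, aeval t p = 0
    · obtain ⟨t, ht, htp⟩ := hroot
      refine ⟨p * f, g, by rw [h1, mul_assoc], fun b hb => ?_, h3⟩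
      rw [map_mul] at hb
      rcases mul_eq_zero.1 hb with h | h
      · exact irreducible_roots hp hT ht htp h
      · exact h2 b h
    · push Not at hroot
      refine ⟨f, p * g, by rw [h1]; ring, h2, fun b hb hb0 => ?_⟩
      rw [map_mul] at hb0
      rcases mul_eq_zero.1 hb0 with h | h
      · exact hroot b hb h
      · exact h3 b hb h

theorem coprime_of {f g : ℝ[X]} (h : ∀ a : ℍ[ℝ], aeval a f = 0 → aeval a g ≠ 0) :
    IsCoprime f g := by
  rw [Polynomial.isCoprime_iff_aeval_ne_zero_of_isAlgClosed ℝ ℂ]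
  intro z
  by_contra hcon
  push Not at hcon
  apply h (z : ℍ[ℝ])
  · rw [aeval_coeComplex, hcon.1]; rfl
  · rw [aeval_coeComplex, hcon.2]; rfl

theorem aeval_comp_neg (f : ℝ[X]) (a : ℍ[ℝ]) : aeval a (f.comp (-X)) = aeval (-a) f := by
  rw [Polynomial.aeval_comp, map_neg, aeval_X]

section main

variable {V : Type*} [AddCommGroup V] [Module ℍ[ℝ]ᵐᵒᵖ V] [Module ℝ V] [IsScalarTower ℝ ℍ[ℝ]ᵐᵒᵖ V]

theorem real_smul_comm (r : ℝ) (q : ℍ[ℝ]ᵐᵒᵖ) (v : V) : r • q • v = q • r • v := by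
  rw [← op_real_smul, ← op_real_smul, smul_smul, smul_smul]
  congr 1
  rw [← op_unop q, ← op_mul, ← op_mul, Quaternion.coe_commutes]

theorem aeval_smul (A : V →ₗ[ℍ[ℝ]ᵐᵒᵖ] V) (p : ℝ[X]) (q : ℍ[ℝ]ᵐᵒᵖ) (v : V) :
    aeval (toR A) p (q • v) = q • aeval (toR A) p v := by
  induction p using Polynomial.induction_on' with
  | add p r hp hr =>
    rw [map_add, LinearMap.add_apply, LinearMap.add_apply, hp, hr, smul_add]
  | monomial n a =>
    rw [aeval_monomial, Module.End.mul_apply, Module.End.mul_apply,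
      Module.algebraMap_end_apply, Module.algebraMap_end_apply]
    have h1 : ∀ n : ℕ, ((toR A) ^ n) (q • v) = q • ((toR A) ^ n) v := by
      intro n
      induction n with
      | zero => simp
      | succ n ih =>
        rw [pow_succ', Module.End.mul_apply, Module.End.mul_apply, ih, toR_apply, toR_apply,
          map_smul]
    rw [h1, real_smul_comm]

theorem aeval_eig (A : V →ₗ[ℍ[ℝ]ᵐᵒᵖ] V) {x : V} {a : ℍ[ℝ]} (h : A x = op a • x) (p : ℝ[X]) :
    aeval (toR A) p x = op (aeval a p) • x := by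
  induction p using Polynomial.induction_on' with
  | add p r hp hr =>
    rw [map_add, LinearMap.add_apply, hp, hr, map_add, op_add, add_smul]
  | monomial n r =>
    rw [aeval_monomial, aeval_monomial, Module.End.mul_apply, Module.algebraMap_end_apply]
    have h1 : ∀ n : ℕ, ((toR A) ^ n) x = op (a ^ n) • x := by
      intro n
      induction n with
      | zero => simp
      | succ n ih =>
        rw [pow_succ', Module.End.mul_apply, ih, toR_apply, map_smul, h, smul_smul, ← op_mul,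
          ← pow_succ']
    rw [h1, ← op_real_smul, smul_smul, ← op_mul, ← Quaternion.coe_commutes]
    rfl

theorem adj {G : V → V → ℍ[ℝ]} (h : QHerm G) (A : V →ₗ[ℍ[ℝ]ᵐᵒᵖ] V)
    (hA : ∀ x y, G (A x) y = -G x (A y)) (p : ℝ[X]) (x y : V) :
    G (aeval (toR A) p x) y = G x (aeval (toR A) (p.comp (-X)) y) := by
  induction p using Polynomial.induction_on' generalizing x y with
  | add p r hp hr =>
    rw [map_add, LinearMap.add_apply, h.add_left, hp, hr, add_comp, map_add,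
      LinearMap.add_apply, h.add_right]
  | monomial n r =>
    have h1 : ∀ (n : ℕ) (x y : V), G (((toR A) ^ n) x) y = G x (((-(toR A)) ^ n) y) := by
      intro n
      induction n with
      | zero => intro x y; simp
      | succ n ih =>
        intro x y
        rw [pow_succ', Module.End.mul_apply, toR_apply, hA, pow_succ, Module.End.mul_apply,
          LinearMap.neg_apply, ← ih, h.neg_right, toR_apply]
    rw [monomial_comp, map_mul, aeval_C, map_pow, map_neg, aeval_X, aeval_monomial,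
      Module.End.mul_apply, Module.End.mul_apply, Module.algebraMap_end_apply,
      Module.algebraMap_end_apply, ← op_real_smul, ← op_real_smul, h.smul_left, h.smul_right,
      Quaternion.star_coe, h1, Quaternion.coe_commutes]

theorem orth {G : V → V → ℍ[ℝ]} (h : QHerm G) (A : V →ₗ[ℍ[ℝ]ᵐᵒᵖ] V)
    (hA : ∀ x y, G (A x) y = -G x (A y)) {f g : ℝ[X]} (hfg : IsCoprime (f.comp (-X)) g) {x y : V}
    (hx : aeval (toR A) f x = 0) (hy : aeval (toR A) g y = 0) : G x y = 0 := by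
  obtain ⟨u, v, huv⟩ := hfg
  have h1 : y = aeval (toR A) (f.comp (-X)) (aeval (toR A) u y) := by
    have h2 := congrArg (fun q => aeval (toR A) q y) huv
    simp only [map_add, map_mul, map_one, LinearMap.add_apply, Module.End.mul_apply, hy,
      map_zero, add_zero, Module.End.one_apply] at h2
    rw [← Module.End.mul_apply, ← map_mul, mul_comm, map_mul, Module.End.mul_apply]
    exact h2.symm
  rw [h1, ← adj h A hA, hx, h.zero_left]

theorem re_conj (a : ℍ[ℝ]) {c : ℍ[ℝ]} (hc : c ≠ 0) : (c⁻¹ * a * c).re = a.re := by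
  have h1 : ∀ u v : ℍ[ℝ], (u * v).re = (v * u).re := by
    intro u v
    simp
    ring
  rw [h1, ← mul_assoc, mul_inv_cancel₀ hc, one_mul]

theorem imag_closed : SimClosed {a : ℍ[ℝ] | a.re = 0} := by
  intro a ha c hc
  exact (re_conj a hc).trans ha

/-- `a` is an eigenvalue of `A` on `M` -/
def IsEig (A : V →ₗ[ℍ[ℝ]ᵐᵒᵖ] V) (M : Submodule ℍ[ℝ]ᵐᵒᵖ V) (a : ℍ[ℝ]) : Prop :=
  ∃ x ∈ M, x ≠ 0 ∧ A x = op a • x

/-- the root subspace for a set of eigenvalues -/
noncomputable def rootSpace (A : V →ₗ[ℍ[ℝ]ᵐᵒᵖ] V) (T : Set ℍ[ℝ]) : Submodule ℍ[ℝ]ᵐᵒᵖ V where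
  carrier := {x | ∃ f : ℝ[X], RootsIn T f ∧ aeval (toR A) f x = 0}
  add_mem' := by
    rintro x y ⟨f, hf, hx⟩ ⟨g, hg, hy⟩
    refine ⟨f * g, fun a ha => ?_, ?_⟩
    · rw [map_mul] at ha
      rcases mul_eq_zero.1 ha with h | h
      · exact hf a h
      · exact hg a h
    · rw [map_add, map_mul, Module.End.mul_apply, Module.End.mul_apply, hy, map_zero, add_zero,
        ← Module.End.mul_apply, ← map_mul, mul_comm, map_mul, Module.End.mul_apply, hx, map_zero]
  zero_mem' := ⟨1, fun a ha => by rw [map_one] at ha; exact absurd ha one_ne_zero, map_zero _⟩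
  smul_mem' := by
    rintro q x ⟨f, hf, hx⟩
    exact ⟨f, hf, by rw [aeval_smul, hx, smul_zero]⟩

theorem mem_rootSpace (A : V →ₗ[ℍ[ℝ]ᵐᵒᵖ] V) (T : Set ℍ[ℝ]) (x : V) :
    x ∈ rootSpace A T ↔ ∃ f : ℝ[X], RootsIn T f ∧ aeval (toR A) f x = 0 := Iff.rfl

/-- decomposition of a vector killed by a polynomial -/
theorem decomp (A : V →ₗ[ℍ[ℝ]ᵐᵒᵖ] V) {T : Set ℍ[ℝ]} (hT : SimClosed T) {m : ℝ[X]} (hm : m ≠ 0)
    {y : V} (hy : aeval (toR A) m y = 0) {N : Submodule ℍ[ℝ]ᵐᵒᵖ V} (hN : ∀ x ∈ N, A x ∈ N)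
    (hyN : y ∈ N) :
    ∃ y₁ y₂ : V, y = y₁ + y₂ ∧ y₁ ∈ N ∧ y₂ ∈ N ∧ y₁ ∈ rootSpace A T ∧
      ∃ g : ℝ[X], g ≠ 0 ∧ g ∣ m ∧ NoRoot T g ∧ aeval (toR A) g y₂ = 0 := by
  obtain ⟨f, g, h1, h2, h3⟩ := split hT m hm
  obtain ⟨u, v, huv⟩ : IsCoprime f g := coprime_of fun a ha => h3 a (h2 a ha)
  have hg0 : g ≠ 0 := by
    rintro rfl
    rw [mul_zero] at h1
    exact hm h1
  refine ⟨aeval (toR A) (v * g) y, aeval (toR A) (u * f) y, ?_, aeval_mem A N hN _ y hyN,
    aeval_mem A N hN _ y hyN, ⟨f, h2, ?_⟩, g, hg0,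
    ⟨f, by rw [h1, mul_comm]⟩, h3, ?_⟩
  · rw [← LinearMap.add_apply, ← map_add, add_comm, huv, map_one, Module.End.one_apply]
  · rw [← Module.End.mul_apply, ← map_mul, show f * (v * g) = v * m by rw [h1]; ring, map_mul,
      Module.End.mul_apply, hy, map_zero]
  · rw [← Module.End.mul_apply, ← map_mul, show g * (u * f) = u * m by rw [h1]; ring, map_mul,
      Module.End.mul_apply, hy, map_zero]

theorem similar_closed (b : ℍ[ℝ]) : SimClosed {a | ∃ c : ℍ[ℝ], c ≠ 0 ∧ a = c⁻¹ * b * c} := by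
  rintro a ⟨c, hc, rfl⟩ d hd
  exact ⟨c * d, mul_ne_zero hc hd, by rw [mul_inv_rev]; simp only [mul_assoc]⟩

/-- a nonzero polynomial which kills an eigenvector and whose roots are similar to the
eigenvalue -/
theorem exists_kill (A : V →ₗ[ℍ[ℝ]ᵐᵒᵖ] V) {x : V} {a : ℍ[ℝ]} (h : A x = op a • x)
    {m : ℝ[X]} (hm : m ≠ 0) (hmx : aeval a m = 0) {T : Set ℍ[ℝ]} (hT : SimClosed T) (ha : a ∈ T) :
    ∃ f : ℝ[X], RootsIn T f ∧ aeval (toR A) f x = 0 := by
  obtain ⟨f, g, h1, h2, h3⟩ := split hT m hm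
  refine ⟨f, h2, ?_⟩
  rw [aeval_eig A h]
  rw [h1, map_mul] at hmx
  rw [(mul_eq_zero.1 hmx).resolve_right (h3 a ha), op_zero, zero_smul]

variable [FiniteDimensional ℝ V] [Module.Finite ℍ[ℝ]ᵐᵒᵖ V]

theorem charpoly_eig (A : V →ₗ[ℍ[ℝ]ᵐᵒᵖ] V) {x : V} {a : ℍ[ℝ]} (hx : x ≠ 0)
    (h : A x = op a • x) : aeval a (toR A).charpoly = 0 := by
  have h1 := aeval_eig A h (toR A).charpoly
  rw [LinearMap.aeval_self_charpoly, LinearMap.zero_apply] at h1
  rcases smul_eq_zero.1 h1.symm with h2 | h2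
  · exact (op_eq_zero_iff _).1 h2
  · exact absurd h2 hx

/-- **Extension with prescribed spectrum.** -/
theorem main {G : V → V → ℍ[ℝ]} (h : QHerm G) (A : V →ₗ[ℍ[ℝ]ᵐᵒᵖ] V)
    (hA : ∀ x y, G (A x) y = -G x (A y)) (hker : ∀ x, (∀ y, G x y = 0) → A x = 0)
    (N : Submodule ℍ[ℝ]ᵐᵒᵖ V) (hN : ∀ x ∈ N, A x ∈ N) (hneu : ∀ x ∈ N, ∀ y ∈ N, G x y = 0)
    (S : Set ℍ[ℝ]) (hS : SimClosed S) (hSre : ∀ a ∈ S, a.re ≠ 0) (hSneg : ∀ a ∈ S, -a ∉ S)
    (hSeig : ∀ a ∈ S, IsEig A ⊤ a) (hSmax : ∀ a, IsEig A ⊤ a → a.re ≠ 0 → a ∉ S → -a ∈ S)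
    (hS0 : ∀ a, IsEig A N a → a.re ≠ 0 → a ∈ S) :
    ∃ L : Submodule ℍ[ℝ]ᵐᵒᵖ V, N ≤ L ∧ (∀ x ∈ L, A x ∈ L) ∧ QNonneg G L ∧
      (∀ M : Submodule ℍ[ℝ]ᵐᵒᵖ V, L ≤ M → QNonneg G M → M = L) ∧
      ∀ a, (IsEig A L a ∧ a.re ≠ 0) ↔ a ∈ S := by
  classical
  have hm : (toR A).charpoly ≠ 0 := (LinearMap.charpoly_monic _).ne_zero
  have hkill : ∀ y : V, aeval (toR A) (toR A).charpoly y = 0 := fun y => by
    rw [LinearMap.aeval_self_charpoly, LinearMap.zero_apply]
  set W := rootSpace A S with hW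
  -- the root subspace is invariant
  have hWinv : ∀ x ∈ W, A x ∈ W := by
    rintro x ⟨f, hf, hx⟩
    refine ⟨f, hf, ?_⟩
    have h1 : A x = aeval (toR A) (X : ℝ[X]) x := by rw [aeval_X]; rfl
    rw [h1, ← Module.End.mul_apply, ← map_mul, mul_comm, map_mul, Module.End.mul_apply, hx,
      map_zero]
  -- and neutral
  have hWneu : ∀ x ∈ W, ∀ y ∈ W, G x y = 0 := by
    rintro x ⟨f, hf, hx⟩ y ⟨g, hg, hy⟩
    refine orth h A hA (coprime_of fun a ha ha' => ?_) hx hy
    rw [aeval_comp_neg] at ha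
    exact hSneg a (hg a ha') (hf _ ha)
  have hsymm : ∀ x y, G x y = 0 → G y x = 0 := fun x y hxy => by
    rw [h.symm x y, hxy, star_zero]
  -- it is orthogonal to `N`
  have hWN : ∀ x ∈ W, ∀ y ∈ N, G x y = 0 := by
    intro x hx y hy
    obtain ⟨y₁, y₂, rfl, hy₁, hy₂, h1, g, hg0, -, hg, hgy⟩ := decomp A hS hm (hkill y) hN hy
    rw [h.add_right, hWneu x hx y₁ h1, zero_add]
    obtain ⟨z₁, z₂, hz, hz₁, hz₂, ⟨f', hf', hf'z⟩, g', hg'0, hg'g, hg', hg'z⟩ :=
      decomp A imag_closed hg0 hgy hN hy₂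
    -- the component `z₂` vanishes
    have hz₂0 : z₂ = 0 := by
      by_contra hne
      let R : Submodule ℍ[ℝ]ᵐᵒᵖ V :=
        { carrier := {w | w ∈ N ∧ aeval (toR A) g' w = 0}
          add_mem' := by
            rintro a b ⟨ha, ha1⟩ ⟨hb, hb1⟩
            exact ⟨N.add_mem ha hb, by rw [map_add, ha1, hb1, add_zero]⟩
          zero_mem' := ⟨N.zero_mem, map_zero _⟩
          smul_mem' := by
            rintro c a ⟨ha, ha1⟩
            exact ⟨N.smul_mem _ ha, by rw [aeval_smul, ha1, smul_zero]⟩ }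
      have hR : ∀ w ∈ R, A w ∈ R := by
        rintro w ⟨hw, hw1⟩
        refine ⟨hN w hw, ?_⟩
        have h1 : A w = aeval (toR A) (X : ℝ[X]) w := by rw [aeval_X]; rfl
        rw [h1, ← Module.End.mul_apply, ← map_mul, mul_comm, map_mul, Module.End.mul_apply, hw1,
          map_zero]
      obtain ⟨w, hw, hw0, q, hq⟩ := exists_eigen A ⊥ R hR (y0 := z₂) ⟨hz₂, hg'z⟩
        (by rw [Submodule.mem_bot]; exact hne)
      rw [Submodule.mem_bot] at hw0 hq
      rw [sub_eq_zero] at hq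
      have h2 : aeval q g' = 0 := by
        have h3 := aeval_eig A hq g'
        rw [hw.2] at h3
        rcases smul_eq_zero.1 h3.symm with h4 | h4
        · exact (op_eq_zero_iff _).1 h4
        · exact absurd h4 hw0
      have h5 : q.re ≠ 0 := fun h0 => hg' q h0 h2
      have h6 : q ∈ S := hS0 q ⟨w, hw.1, hw0, hq⟩ h5
      obtain ⟨r, hr⟩ := hg'g
      exact hg q h6 (by rw [hr, map_mul, h2, zero_mul])
    rw [hz, hz₂0, add_zero]
    obtain ⟨f, hf, hfx⟩ := hx
    refine orth h A hA (coprime_of fun a ha ha' => ?_) hfx hf'z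
    rw [aeval_comp_neg] at ha
    have h7 := hSre _ (hf _ ha)
    have h8 : a.re = 0 := hf' a ha'
    apply h7
    rw [Quaternion.re_neg, h8, neg_zero]
  -- the extension
  obtain ⟨L, hL1, hL2, hL3, hL4⟩ := extend_nonneg h A hA (N ⊔ W) (by
      intro z hz
      obtain ⟨n, hn, w, hw, rfl⟩ := Submodule.mem_sup.1 hz
      rw [map_add]
      exact Submodule.add_mem_sup (hN n hn) (hWinv w hw)) (by
      intro z hz z' hz'
      obtain ⟨n, hn, w, hw, rfl⟩ := Submodule.mem_sup.1 hz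
      obtain ⟨n', hn', w', hw', rfl⟩ := Submodule.mem_sup.1 hz'
      rw [h.add_left, h.add_right, h.add_right, hneu n hn n' hn', hWN w hw n' hn',
        hsymm _ _ (hWN w' hw' n hn), hWneu w hw w' hw']
      simp)
  refine ⟨L, le_sup_left.trans hL1, hL2, hL3, hL4, fun a => ⟨?_, fun ha => ?_⟩⟩
  · rintro ⟨⟨x, hxL, hx0, hx⟩, hre⟩
    by_contra haS
    have hna : -a ∈ S := hSmax a ⟨x, Submodule.mem_top, hx0, hx⟩ hre haS
    -- `x` is neutral
    have hxx : (G x x).re = 0 := by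
      have h1 := hA x x
      rw [hx, h.smul_left, h.smul_right, h.real x] at h1
      have h2 := congrArg (fun q : ℍ[ℝ] => q.re) h1
      simp at h2
      have h3 : (2 * a.re) * (G x x).re = 0 := by linarith
      rcases mul_eq_zero.1 h3 with h4 | h4
      · exact absurd (by linarith) hre
      · exact h4
    have hort : ∀ y, G x y = 0 := by
      intro y
      obtain ⟨y₁, y₂, rfl, -, -, h1, g, hg0, -, hg, hgy⟩ :=
        decomp A hS hm (hkill y) (N := ⊤) (fun _ _ => Submodule.mem_top) Submodule.mem_top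
      rw [h.add_right, h.cs hL3 hxL (hL1 ((le_sup_right : W ≤ N ⊔ W) h1)) hxx, zero_add]
      obtain ⟨f, hf, hfx⟩ := exists_kill A hx hm (charpoly_eig A hx0 hx) (similar_closed a)
        ⟨1, one_ne_zero, by simp⟩
      refine orth h A hA (coprime_of fun b hb hb' => ?_) hfx hgy
      rw [aeval_comp_neg] at hb
      obtain ⟨c, hc, hcb⟩ := hf _ hb
      apply hg b _ hb'
      have h2 := hS (-a) hna c hc
      have h3 : b = c⁻¹ * -a * c := by
        rw [← neg_neg b, hcb]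
        simp
      rw [h3]
      exact h2
    have hAx := hker x hort
    rw [hx] at hAx
    rcases smul_eq_zero.1 hAx with h1 | h1
    · rw [op_eq_zero_iff] at h1
      rw [h1] at hre
      exact hre rfl
    · exact hx0 h1
  · refine ⟨?_, hSre a ha⟩
    obtain ⟨x, -, hx0, hx⟩ := hSeig a ha
    have h1 : x ∈ W := exists_kill A hx hm (charpoly_eig A hx0 hx) hS ha
    exact ⟨x, hL1 ((le_sup_right : W ≤ N ⊔ W) h1), hx0, hx⟩

/-- a set of eigenvalues with nonzero real parts, closed under similarity, which does not contain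
both an element and its negative -/
def PreCSet (A : V →ₗ[ℍ[ℝ]ᵐᵒᵖ] V) (S : Set ℍ[ℝ]) : Prop :=
  (∀ a ∈ S, IsEig A ⊤ a) ∧ (∀ a ∈ S, a.re ≠ 0) ∧ SimClosed S ∧ ∀ a ∈ S, -a ∉ S

omit [FiniteDimensional ℝ V] [Module.Finite ℍ[ℝ]ᵐᵒᵖ V] in
theorem max_of {A : V →ₗ[ℍ[ℝ]ᵐᵒᵖ] V} {S : Set ℍ[ℝ]} (hS : PreCSet A S)
    (hmax : ∀ S', PreCSet A S' → S ⊆ S' → S' = S) (a : ℍ[ℝ]) (ha : IsEig A ⊤ a)
    (hre : a.re ≠ 0) (haS : a ∉ S) : -a ∈ S := by
  by_contra hna
  obtain ⟨h1, h2, h3, h4⟩ := hS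
  have key : PreCSet A (S ∪ {b | ∃ c : ℍ[ℝ], c ≠ 0 ∧ b = c⁻¹ * a * c}) := by
    refine ⟨?_, ?_, ?_, ?_⟩
    · rintro b (hb | ⟨c, hc, rfl⟩)
      · exact h1 b hb
      · obtain ⟨x, -, hx0, hx⟩ := ha
        refine ⟨op c • x, Submodule.mem_top, ?_, ?_⟩
        · intro h0
          rcases smul_eq_zero.1 h0 with h | h
          · exact hc ((op_eq_zero_iff _).1 h)
          · exact hx0 h
        · rw [map_smul, hx, smul_smul, smul_smul, ← op_mul, ← op_mul, ← mul_assoc, ← mul_assoc,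
            mul_inv_cancel₀ hc, one_mul]
    · rintro b (hb | ⟨c, hc, rfl⟩)
      · exact h2 b hb
      · rw [re_conj a hc]
        exact hre
    · rintro b (hb | hb) d hd
      · exact Or.inl (h3 b hb d hd)
      · exact Or.inr (similar_closed a b hb d hd)
    · rintro b (hb | ⟨c, hc, rfl⟩) hb'
      · rcases hb' with hb' | ⟨c, hc, hb'⟩
        · exact h4 b hb hb'
        · apply hna
          have h5 := h3 b hb c⁻¹ (inv_ne_zero hc)
          have h6 : b = -(c⁻¹ * a * c) := by rw [← hb', neg_neg]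
          rw [h6, inv_inv] at h5
          have h7 : c * -(c⁻¹ * a * c) * c⁻¹ = -a := by
            rw [mul_neg, neg_mul, ← mul_assoc, ← mul_assoc, mul_inv_cancel₀ hc, one_mul, mul_assoc,
              mul_inv_cancel₀ hc, mul_one]
          rwa [h7] at h5
      · rcases hb' with hb' | ⟨d, hd, hb'⟩
        · apply hna
          have h5 := h3 _ hb' c⁻¹ (inv_ne_zero hc)
          rw [inv_inv] at h5
          have h7 : c * -(c⁻¹ * a * c) * c⁻¹ = -a := by
            rw [mul_neg, neg_mul, ← mul_assoc, ← mul_assoc, mul_inv_cancel₀ hc, one_mul, mul_assoc,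
              mul_inv_cancel₀ hc, mul_one]
          rwa [h7] at h5
        · have h5 := congrArg (fun q : ℍ[ℝ] => q.re) hb'
          simp only [Quaternion.re_neg, re_conj a hc, re_conj a hd] at h5
          exact hre (by linarith)
  have h5 := hmax _ key Set.subset_union_left
  apply haS
  rw [← h5]
  exact Or.inr ⟨1, one_ne_zero, by simp⟩

end main

end Pool.Agent.K6.H67.QSpec
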